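import Mathlib
import Pool.Agent.LibMC91.R12
import Pool.Agent.LibMC91.R17

set_option autoImplicit false
set_option linter.unusedSectionVars false

/-!
# LibMB68 (MP_d417b4 Q1, conditions on the blocks)
-/

namespace Pool.Agent.LibMB68

open Finset Pool.Agent.LibMST Pool.Agent.LibMSB Pool.Agent.LibOC52 Pool.Agent.LibMC91

variable {V : Type*} [Fintype V] [DecidableEq V]

/-- A bridgeless connected vertex set `C` (with an edge) such that everything else hangs at single vertices of `C`. -/
structure Piece (E : Finset (Sym2 V)) (C : Finset V) : Prop where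
  ne : (ein E C).Nonempty
  conn : Cn (ein E C) C
  two : ∀ e ∈ ein E C, Cn ((ein E C).erase e) C
  root : ∃ r, Root E C r

/-- A minimal piece. -/
def Block (E : Finset (Sym2 V)) (C : Finset V) : Prop :=
  Piece E C ∧ ∀ C' ⊆ C, Piece E C' → C' = C

/-- All edges which leave `Z` go to `k`. -/
def VCut (E : Finset (Sym2 V)) (Z : Finset V) (k : V) : Prop :=
  k ∉ Z ∧ ∀ u ∈ Z, ∀ v, v ∉ Z → s(u, v) ∈ E → v = k

/-- The family of the selection argument. -/
def Fam (E : Finset (Sym2 V)) (Z : Finset V) : Prop :=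
  Z = univ ∨ ∃ k, VCut E Z k ∧ (∃ e ∈ nb E, ∀ v ∈ e, v ∈ insert k Z) ∧ Lo E (Zᶜ.erase k)

/-- `C` minus any vertex is connected. -/
def TwoConn (E : Finset (Sym2 V)) (C : Finset V) : Prop :=
  3 ≤ C.card ∧ ∀ h ∈ C, Cn ((ein E C).filter (fun e => h ∉ e)) (C.erase h)

/-- Connectedness goes to one side of a cut vertex. -/
theorem side_conn {X A : Finset V} {E : Finset (Sym2 V)} {u : V} (hc : Cn (ein E X) X)
    (hA : A ⊆ X) (hsep : ∀ a ∈ A, ∀ b ∈ X, b ∉ A → s(a, b) ∈ E → a = u) :
    Cn (ein E A) A := by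
  intro U hU hne hUA
  by_cases hu : u ∈ U
  · obtain ⟨z, hz, hzU⟩ : ∃ z ∈ A, z ∉ U := by
      by_contra hcon
      push Not at hcon
      exact hUA (Subset.antisymm hU hcon)
    obtain ⟨a, ha, b, hb, hb', he⟩ := hc (U ∪ (X \ A))
      (union_subset (hU.trans hA) sdiff_subset) (hne.mono subset_union_left) (by
        intro h
        have h1 : z ∈ U ∪ (X \ A) := by rw [h]; exact hA hz
        rw [mem_union, mem_sdiff] at h1
        rcases h1 with h1 | h1
        · exact hzU h1
        · exact h1.2 hz)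
    rw [mem_union, mem_sdiff] at hb'
    push Not at hb'
    obtain ⟨hbU, hbA⟩ := hb'
    have hbA' := hbA hb
    rw [mem_ein] at he
    rw [mem_union, mem_sdiff] at ha
    rcases ha with ha | ha
    · refine ⟨a, ha, b, hbA', hbU, ?_⟩
      rw [mem_ein]
      refine ⟨he.1, ?_⟩
      intro w hw
      rw [Sym2.mem_iff] at hw
      rcases hw with rfl | rfl
      · exact hU ha
      · exact hbA'
    · exfalso
      have h2 := hsep b hbA' a ha.1 ha.2 (by rw [Sym2.eq_swap]; exact he.1)
      rw [h2] at hbU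
      exact hbU hu
  · obtain ⟨a, ha, b, hb, hb', he⟩ := hc U (hU.trans hA) hne (by
      intro h
      exact hUA (Subset.antisymm hU (by rw [h]; exact hA)))
    rw [mem_ein] at he
    by_cases hbA : b ∈ A
    · refine ⟨a, ha, b, hbA, hb', ?_⟩
      rw [mem_ein]
      refine ⟨he.1, ?_⟩
      intro w hw
      rw [Sym2.mem_iff] at hw
      rcases hw with rfl | rfl
      · exact hU ha
      · exact hbA
    · exfalso
      have h2 := hsep a (hU ha) b hb hbA he.1
      rw [h2] at ha
      exact hu ha

end Pool.Agent.LibMB68
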