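import Mathlib
import Pool.Agent.LibMB68.Sig
import Pool.Agent.LibMC91.R14

set_option autoImplicit false
set_option linter.unusedSectionVars false

namespace Pool.Agent.LibMB68

open Finset Pool.Agent.LibMST Pool.Agent.LibMSB Pool.Agent.LibOC52 Pool.Agent.LibMC91

variable {V : Type*} [Fintype V] [DecidableEq V]

private theorem v6_ex (e : Sym2 V) : ∃ a b, e = s(a, b) := by
  induction e using Sym2.ind with
  | _ a b => exact ⟨a, b, rfl⟩

private theorem v6_rt {E : Finset (Sym2 V)} {Y : Finset V} {v : V} (hv : v ∈ Y) :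
    rt univ (ein E Y) v = rt Y E v := by
  ext p
  rw [mem_rt, mem_rt]
  constructor
  · rintro ⟨⟨⟨h1, t, h2⟩, _⟩, h4⟩
    refine ⟨⟨⟨fun e he => (mem_ein.mp (h1 he)).1, t, h2⟩, ?_⟩, h4⟩
    intro x hx
    rcases (h2.reroot v h4).cover x hx with h5 | ⟨e, he, hxe⟩
    · rw [h5]; exact hv
    · exact (mem_ein.mp (h1 he)).2 x hxe
  · rintro ⟨⟨⟨h1, t, h2⟩, h3⟩, h4⟩
    exact ⟨⟨⟨fun e he => mem_ein.mpr ⟨h1 he, fun x hx => h3 (h2.edge_sub e he x hx)⟩, t, h2⟩,
      subset_univ _⟩, h4⟩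

private theorem v6_side {E : Finset (Sym2 V)} {Z : Finset V} {v : V}
    (hZ : ∀ u ∈ Z, ∀ w, w ∉ Z → s(u, w) ∈ E → w = v) {r : V} {A : Finset V} {B : Finset (Sym2 V)}
    (hg : Grow r A B) (hB : B ⊆ E) : v ∉ A → A ⊆ Z ∨ A ⊆ Zᶜ.erase v := by
  induction hg with
  | base =>
    intro hv
    by_cases hr : r ∈ Z
    · exact Or.inl (singleton_subset_iff.mpr hr)
    · refine Or.inr (singleton_subset_iff.mpr (mem_erase.mpr ⟨?_, mem_compl.mpr hr⟩))
      rintro rfl
      exact hv (mem_singleton_self _)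
  | @step A B a w hg ha hw ih =>
    intro hv
    rw [mem_insert] at hv
    push Not at hv
    have haw : s(a, w) ∈ E := hB (mem_insert_self _ _)
    rcases ih ((subset_insert _ _).trans hB) hv.2 with h1 | h1
    · by_cases hwZ : w ∈ Z
      · exact Or.inl (insert_subset hwZ h1)
      · exact absurd (hZ a (h1 ha) w hwZ haw).symm hv.1
    · by_cases hwZ : w ∈ Z
      · exfalso
        have h2 := mem_erase.mp (h1 ha)
        exact h2.1 (hZ w hwZ a (mem_compl.mp h2.2) (by rw [Sym2.eq_swap]; exact haw))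
      · exact Or.inr (insert_subset (mem_erase.mpr ⟨fun h => hv.1 h.symm, mem_compl.mpr hwZ⟩) h1)

/-- Decomposition at a cut vertex. -/
private theorem vcut_sum_aux {E : Finset (Sym2 V)} (hl : ∀ e ∈ E, ¬ e.IsDiag) {Z : Finset V} {v : V} (hvZ : v ∉ Z)
    (hZ : ∀ u ∈ Z, ∀ w, w ∉ Z → s(u, w) ∈ E → w = v) :
    no univ E = no Z E + no (Zᶜ.erase v) E + nr (insert v Z) E v * nr Zᶜ E v ∧
    so univ E + nr (insert v Z) E v * nr Zᶜ E v = so Z E + so (Zᶜ.erase v) E +
      (sr (insert v Z) E v * nr Zᶜ E v + nr (insert v Z) E v * sr Zᶜ E v) := by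
  classical
  have hE : E = ein E (insert v Z) ∪ ein E Zᶜ := by
    ext e
    rw [mem_union, mem_ein, mem_ein]
    constructor
    · intro he
      obtain ⟨a, b, rfl⟩ := v6_ex e
      by_cases ha : a ∈ Z
      · left
        refine ⟨he, fun x hx => ?_⟩
        rw [Sym2.mem_iff] at hx
        rcases hx with rfl | rfl
        · exact mem_insert_of_mem ha
        · by_cases hb : x ∈ Z
          · exact mem_insert_of_mem hb
          · rw [hZ a ha x hb he]; exact mem_insert_self _ _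
      · by_cases hb : b ∈ Z
        · left
          refine ⟨he, fun x hx => ?_⟩
          rw [Sym2.mem_iff] at hx
          rcases hx with rfl | rfl
          · rw [hZ b hb x ha (by rw [Sym2.eq_swap]; exact he)]; exact mem_insert_self _ _
          · exact mem_insert_of_mem hb
        · right
          refine ⟨he, fun x hx => ?_⟩
          rw [Sym2.mem_iff] at hx
          rcases hx with rfl | rfl
          · exact mem_compl.mpr ha
          · exact mem_compl.mpr hb
    · rintro (h | h)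
      · exact h.1
      · exact h.1
  have hd : ∀ x, x ≠ v → (∃ e ∈ ein E (insert v Z), x ∈ e) → ¬ ∃ e ∈ ein E Zᶜ, x ∈ e := by
    rintro x hx ⟨e, he, hxe⟩ ⟨e', he', hxe'⟩
    have h1 := (mem_ein.mp he).2 x hxe
    have h2 := (mem_ein.mp he').2 x hxe'
    rw [mem_insert] at h1
    rcases h1 with h1 | h1
    · exact hx h1
    · exact (mem_compl.mp h2) h1
  have hd2 : Disjoint (ein E (insert v Z)) (ein E Zᶜ) := by
    rw [disjoint_left]
    intro e he he'
    obtain ⟨a, b, rfl⟩ := v6_ex e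
    have k : ∀ x ∈ s(a, b), x = v := by
      intro x hx
      have h1 := (mem_ein.mp he).2 x hx
      have h2 := (mem_ein.mp he').2 x hx
      rw [mem_insert] at h1
      rcases h1 with h1 | h1
      · exact h1
      · exact absurd h1 (mem_compl.mp h2)
    have ka := k a (Sym2.mem_mk_left a b)
    have kb := k b (Sym2.mem_mk_right a b)
    apply hl _ (mem_ein.mp he).1
    rw [ka, kb]
    exact Sym2.mk_isDiag_iff.mpr rfl
  have hv2 : v ∈ Zᶜ := mem_compl.mpr hvZ
  have hglue : ∀ F : Finset V × Finset (Sym2 V) → ℚ, ∑ p ∈ rt univ E v, F p =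
      ∑ p ∈ rt (insert v Z) E v, ∑ q ∈ rt Zᶜ E v, F (p.1 ∪ q.1, p.2 ∪ q.2) := by
    intro F
    have h1 := glue (h := v) hd hd2 F
    rw [← hE, v6_rt (mem_insert_self v Z), v6_rt hv2] at h1
    exact h1
  have hnon : (tc univ E).filter (fun p => v ∉ p.1) = tc Z E ∪ tc (Zᶜ.erase v) E := by
    ext p
    rw [mem_filter, mem_union, mem_tc, mem_tc, mem_tc]
    constructor
    · rintro ⟨⟨⟨h1, t, h2⟩, _⟩, h3⟩
      rcases v6_side hZ h2 h1 h3 with h4 | h4
      · exact Or.inl ⟨⟨h1, t, h2⟩, h4⟩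
      · exact Or.inr ⟨⟨h1, t, h2⟩, h4⟩
    · rintro (⟨h1, h2⟩ | ⟨h1, h2⟩)
      · exact ⟨⟨h1, subset_univ _⟩, fun h3 => hvZ (h2 h3)⟩
      · exact ⟨⟨h1, subset_univ _⟩, fun h3 => (mem_erase.mp (h2 h3)).1 rfl⟩
  have hdis : Disjoint (tc Z E) (tc (Zᶜ.erase v) E) := by
    rw [disjoint_left]
    intro p h1 h2
    rw [mem_tc] at h1 h2
    obtain ⟨⟨_, t, h3⟩, h4⟩ := h1
    exact (mem_compl.mp (mem_erase.mp (h2.2 h3.root_mem)).2) (h4 h3.root_mem)
  have hsplit : ∀ F : Finset V × Finset (Sym2 V) → ℚ, ∑ p ∈ tc univ E, F p =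
      ∑ p ∈ tc Z E, F p + ∑ p ∈ tc (Zᶜ.erase v) E, F p +
        ∑ p ∈ rt (insert v Z) E v, ∑ q ∈ rt Zᶜ E v, F (p.1 ∪ q.1, p.2 ∪ q.2) := by
    intro F
    rw [← hglue F, ← sum_union hdis, ← hnon]
    unfold rt
    rw [add_comm]
    exact (sum_filter_add_sum_filter_not (tc univ E) (fun p => v ∈ p.1) F).symm
  have hc : ∀ p ∈ rt (insert v Z) E v, ∀ q ∈ rt Zᶜ E v,
      ((p.1 ∪ q.1).card : ℚ) = (p.1.card : ℚ) + q.1.card - 1 := by
    intro p hp q hq
    have h1 := glue_inter hd (by rw [v6_rt (mem_insert_self v Z)]; exact hp) (by rw [v6_rt hv2]; exact hq)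
    have h2 := card_union_add_card_inter p.1 q.1
    rw [h1, card_singleton] at h2
    have h3 : ((p.1 ∪ q.1).card : ℚ) + 1 = (p.1.card : ℚ) + q.1.card := by exact_mod_cast h2
    linarith
  constructor
  · have h1 := hsplit (fun _ => 1)
    simp only [sum_const, nsmul_eq_mul, mul_one] at h1
    unfold no nr
    exact_mod_cast h1
  · have h1 := hsplit (fun p => (p.1.card : ℚ))
    rw [sum_congr rfl (fun p hp => sum_congr rfl (fun q hq => hc p hp q hq))] at h1
    simp only [sum_sub_distrib, sum_add_distrib, sum_const, nsmul_eq_mul, mul_one] at h1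
    have h2 : ((so univ E + nr (insert v Z) E v * nr Zᶜ E v : ℕ) : ℚ) = ((so Z E + so (Zᶜ.erase v) E +
      (sr (insert v Z) E v * nr Zᶜ E v + nr (insert v Z) E v * sr Zᶜ E v) : ℕ) : ℚ) := by
      unfold so nr sr
      push_cast
      rw [h1, ← mul_sum]
      ring
    exact_mod_cast h2

/-- ROW B1. -/
theorem vcut_sum {E : Finset (Sym2 V)} (hl : ∀ e ∈ E, ¬ e.IsDiag) {Z : Finset V} {k : V} (h : VCut E Z k) :
    no univ E = no Z E + no (Zᶜ.erase k) E + nr (insert k Z) E k * nr Zᶜ E k ∧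
    so univ E + nr (insert k Z) E k * nr Zᶜ E k =
      so Z E + so (Zᶜ.erase k) E + (sr (insert k Z) E k * nr Zᶜ E k + nr (insert k Z) E k * sr Zᶜ E k) :=
  vcut_sum_aux hl h.1 h.2

end Pool.Agent.LibMB68
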