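import Mathlib
import Pool.Agent.LibMB68.Sig

set_option autoImplicit false
set_option linter.unusedSectionVars false

namespace Pool.Agent.LibMB68

open Finset Pool.Agent.LibMST Pool.Agent.LibMSB Pool.Agent.LibOC52 Pool.Agent.LibMC91

variable {V : Type*} [Fintype V] [DecidableEq V]

private theorem ein_erase_h13 (E : Finset (Sym2 V)) (X : Finset V) (e : Sym2 V) :
    (ein E X).erase e = ein (E.erase e) X := by
  ext f
  rw [mem_erase, mem_ein, mem_ein, mem_erase]
  tauto

/-- ROW B6 (Lemma P). -/
theorem piece_cut {E : Finset (Sym2 V)} (hE : Cn E univ) {K Z : Finset V} {k : V} (hK : Piece E K) (h : VCut E Z k)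
    (hk : k ∈ K) (hz : ∃ z ∈ Z, z ∈ K) : Piece E (K ∩ insert k Z) := by
  obtain ⟨hkZ, hcut⟩ := h
  have hAK : K ∩ insert k Z ⊆ K := inter_subset_left
  have hsep : ∀ a ∈ K ∩ insert k Z, ∀ b ∈ K, b ∉ K ∩ insert k Z → s(a, b) ∈ E → a = k := by
    intro a ha b hb hb' hab
    rw [mem_inter, mem_insert] at ha hb'
    by_contra hne
    have haZ : a ∈ Z := by
      rcases ha.2 with h1 | h1
      · exact absurd h1 hne
      · exact h1
    have hbZ : b ∉ Z := fun h1 => hb' ⟨hb, Or.inr h1⟩
    exact hb' ⟨hb, Or.inl (hcut a haZ b hbZ hab)⟩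
  have hconn : Cn (ein E (K ∩ insert k Z)) (K ∩ insert k Z) := side_conn hK.conn hAK hsep
  have hkA : k ∈ K ∩ insert k Z := mem_inter.2 ⟨hk, mem_insert_self _ _⟩
  refine ⟨?_, hconn, ?_, ?_⟩
  · obtain ⟨z, hzZ, hzK⟩ := hz
    obtain ⟨u, hu, v, hv, hvu, he⟩ := hconn {k} (by
      intro x hx
      rw [mem_singleton] at hx
      rw [hx]; exact hkA) ⟨k, mem_singleton_self k⟩ (by
      intro hcon
      have h1 : z ∈ K ∩ insert k Z := mem_inter.2 ⟨hzK, mem_insert_of_mem hzZ⟩
      rw [← hcon, mem_singleton] at h1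
      rw [h1] at hzZ
      exact hkZ hzZ)
    exact ⟨_, he⟩
  · intro e he
    have heK : e ∈ ein E K := by
      rw [mem_ein] at he ⊢
      exact ⟨he.1, fun v hv => hAK (he.2 v hv)⟩
    have h2 := hK.two e heK
    rw [ein_erase_h13] at h2 ⊢
    exact side_conn h2 hAK (fun a ha b hb hb' hab => hsep a ha b hb hb' (mem_of_mem_erase hab))
  · obtain ⟨r, hr⟩ := hK.root
    have hrk : r k = k := hr.id k hk
    have hin : ∀ w ∈ Z, r w ∈ insert k Z := by
      by_contra hcon
      push Not at hcon
      obtain ⟨w, hwZ, hw⟩ := hcon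
      obtain ⟨u, hu, v, _, hv, huv⟩ := hE (Z.filter (fun w => r w ∉ insert k Z)) (subset_univ _)
        ⟨w, mem_filter.2 ⟨hwZ, hw⟩⟩ (by
          intro h1
          have h2 : k ∈ Z.filter (fun w => r w ∉ insert k Z) := by rw [h1]; exact mem_univ k
          exact hkZ (mem_filter.1 h2).1)
      rw [mem_filter] at hu hv
      have huK : u ∉ K := by
        intro h1
        apply hu.2
        rw [hr.id u h1]
        exact mem_insert_of_mem hu.1
      have hruv : r u = r v := hr.edge u v huv (fun h1 => huK h1.1)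
      apply hu.2
      by_cases hvZ : v ∈ Z
      · rw [hruv]
        by_contra h1
        exact hv ⟨hvZ, h1⟩
      · have hvk : v = k := hcut u hu.1 v hvZ huv
        rw [hruv, hvk, hrk]
        exact mem_insert_self _ _
    refine ⟨fun w => if w ∈ Z then r w else k, ?_, ?_, ?_⟩
    · intro w
      by_cases hw : w ∈ Z
      · simp only [hw, if_true]
        exact mem_inter.2 ⟨hr.mem w, hin w hw⟩
      · simp only [hw, if_false]
        exact hkA
    · intro w hw
      rw [mem_inter, mem_insert] at hw
      by_cases hwZ : w ∈ Z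
      · simp only [hwZ, if_true]
        exact hr.id w hw.1
      · simp only [hwZ, if_false]
        rcases hw.2 with h1 | h1
        · exact h1.symm
        · exact absurd h1 hwZ
    · intro u v huv hnot
      by_cases hu : u ∈ Z
      · by_cases hv : v ∈ Z
        · simp only [hu, hv, if_true]
          refine hr.edge u v huv (fun h1 => hnot ?_)
          exact ⟨mem_inter.2 ⟨h1.1, mem_insert_of_mem hu⟩, mem_inter.2 ⟨h1.2, mem_insert_of_mem hv⟩⟩
        · simp only [hu, hv, if_true, if_false]
          have hvk : v = k := hcut u hu v hv huv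
          subst hvk
          have huK : u ∉ K := fun h1 => hnot ⟨mem_inter.2 ⟨h1, mem_insert_of_mem hu⟩, hkA⟩
          rw [hr.edge u v huv (fun h1 => huK h1.1), hrk]
      · by_cases hv : v ∈ Z
        · simp only [hu, hv, if_true, if_false]
          have huk : u = k := hcut v hv u hu (by rw [Sym2.eq_swap]; exact huv)
          subst huk
          have hvK : v ∉ K := fun h1 => hnot ⟨hkA, mem_inter.2 ⟨h1, mem_insert_of_mem hv⟩⟩
          rw [← hr.edge u v huv (fun h1 => hvK h1.2), hrk]
        · simp only [hu, hv, if_false]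

end Pool.Agent.LibMB68
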