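import Mathlib
import Pool.Agent.LibMB68.Sig
import Pool.Agent.LibMB68.B6

set_option autoImplicit false
set_option linter.unusedSectionVars false

namespace Pool.Agent.LibMB68

open Finset Pool.Agent.LibMST Pool.Agent.LibMSB Pool.Agent.LibOC52 Pool.Agent.LibMC91

variable {V : Type*} [Fintype V] [DecidableEq V]

/-- ROW B11 (blocks are 2-connected). -/
theorem block_twoConn {E : Finset (Sym2 V)} (hl : ∀ e ∈ E, ¬ e.IsDiag) (hE : Cn E univ) {C : Finset V} (hC : Block E C) :
    TwoConn E C := by
  classical
  obtain ⟨hP, hmin⟩ := hC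
  refine ⟨?_, ?_⟩
  · obtain ⟨e, he⟩ := hP.ne
    obtain ⟨a, b, rfl⟩ : ∃ a b, e = s(a, b) := by
      induction e using Sym2.ind with
      | _ a b => exact ⟨a, b, rfl⟩
    have haC : a ∈ C := (mem_ein.1 he).2 a (Sym2.mem_mk_left a b)
    have hbC : b ∈ C := (mem_ein.1 he).2 b (Sym2.mem_mk_right a b)
    have hab : a ≠ b := fun h => hl _ (mem_ein.1 he).1 (by rw [h]; exact Sym2.mk_isDiag_iff.mpr rfl)
    obtain ⟨u, hu, h, hh, hhU, huh⟩ := hP.two _ he {a} (singleton_subset_iff.2 haC) (singleton_nonempty a) (by
      intro h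
      rw [← h, mem_singleton] at hbC
      exact hab hbC.symm)
    rw [mem_singleton] at hu hhU
    subst hu
    have hhb : h ≠ b := by
      rintro rfl
      exact (mem_erase.1 huh).1 rfl
    have h3 : ({u, b, h} : Finset V) ⊆ C := by
      intro x hx
      rw [mem_insert, mem_insert, mem_singleton] at hx
      rcases hx with rfl | rfl | rfl
      · exact haC
      · exact hbC
      · exact hh
    have h4 : ({u, b, h} : Finset V).card = 3 := by
      rw [card_eq_three]
      exact ⟨u, b, h, hab, fun h5 => hhU h5.symm, fun h5 => hhb h5.symm, rfl⟩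
    rw [← h4]
    exact card_le_card h3
  · intro h hh U hU hUn hUne
    by_contra hcon
    push Not at hcon
    obtain ⟨r, hr⟩ := hP.root
    obtain ⟨Z, hZ⟩ : ∃ Z : Finset V, Z = univ.filter (fun w => r w ∈ U) := ⟨_, rfl⟩
    have hm : ∀ w, w ∈ Z ↔ r w ∈ U := by
      intro w
      rw [hZ, mem_filter]
      simp
    have hcut : VCut E Z h := by
      refine ⟨?_, ?_⟩
      · rw [hm, hr.id h hh]
        intro h1
        exact (mem_erase.1 (hU h1)).1 rfl
      · intro u hu v hv huv
        rw [hm] at hu hv
        by_contra hvh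
        have hboth : u ∈ C ∧ v ∈ C := by
          by_contra hn
          have := hr.edge u v huv hn
          rw [this] at hu
          exact hv hu
        rw [hr.id u hboth.1] at hu
        rw [hr.id v hboth.2] at hv
        refine hcon u hu v (mem_erase.2 ⟨hvh, hboth.2⟩) hv ?_
        rw [mem_filter, mem_ein]
        refine ⟨⟨huv, ?_⟩, ?_⟩
        · intro x hx
          rw [Sym2.mem_iff] at hx
          rcases hx with rfl | rfl
          · exact hboth.1
          · exact hboth.2
        · rw [Sym2.mem_iff]
          rintro (rfl | rfl)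
          · exact (mem_erase.1 (hU hu)).1 rfl
          · exact hvh rfl
    obtain ⟨u0, hu0⟩ := hUn
    have hu0C : u0 ∈ C := (mem_erase.1 (hU hu0)).2
    have hpc := piece_cut hE hP hcut hh ⟨u0, (hm u0).2 (by rw [hr.id u0 hu0C]; exact hu0), hu0C⟩
    have heq := hmin _ inter_subset_left hpc
    apply hUne
    refine Subset.antisymm hU ?_
    intro w hw
    rw [mem_erase] at hw
    have h1 : w ∈ C ∩ insert h Z := by rw [heq]; exact hw.2
    rw [mem_inter, mem_insert] at h1
    rcases h1.2 with h2 | h2
    · exact absurd h2 hw.1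
    · rw [hm, hr.id w hw.2] at h2
      exact h2

end Pool.Agent.LibMB68
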