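import Mathlib
import Pool.Agent.LibMB68.Sig

set_option autoImplicit false
set_option linter.unusedSectionVars false

namespace Pool.Agent.LibMB68

open Finset Pool.Agent.LibMST Pool.Agent.LibMSB Pool.Agent.LibOC52 Pool.Agent.LibMC91

variable {V : Type*} [Fintype V] [DecidableEq V]

/-- ROW B12 (maximality). -/
theorem piece_max {E : Finset (Sym2 V)} (hl : ∀ e ∈ E, ¬ e.IsDiag) {C C2 : Finset V} (hC : Piece E C) (h : TwoConn E C2) (hs : C ⊆ C2) :
    C = C2 := by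
  classical
  by_contra hne
  obtain ⟨w, hw, hwC⟩ : ∃ w ∈ C2, w ∉ C := by
    by_contra hcon
    push Not at hcon
    exact hne (Subset.antisymm hs hcon)
  obtain ⟨r, hr⟩ := hC.root
  have hkC : r w ∈ C := hr.mem w
  obtain ⟨c, hcC, hck⟩ : ∃ c ∈ C, c ≠ r w := by
    obtain ⟨e, he⟩ := hC.ne
    obtain ⟨a, b, rfl⟩ : ∃ a b, e = s(a, b) := by
      induction e using Sym2.ind with
      | _ a b => exact ⟨a, b, rfl⟩
    have haC : a ∈ C := (mem_ein.1 he).2 a (Sym2.mem_mk_left a b)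
    have hbC : b ∈ C := (mem_ein.1 he).2 b (Sym2.mem_mk_right a b)
    have hab : a ≠ b := fun h => hl _ (mem_ein.1 he).1 (by rw [h]; exact Sym2.mk_isDiag_iff.mpr rfl)
    by_cases h1 : a = r w
    · exact ⟨b, hbC, fun h2 => hab (h1.trans h2.symm)⟩
    · exact ⟨a, haC, h1⟩
  obtain ⟨U, hU⟩ : ∃ U : Finset V, U = (C2.erase (r w)).filter (fun u => u ∉ C ∧ r u = r w) := ⟨_, rfl⟩
  have hm : ∀ u, u ∈ U ↔ (u ≠ r w ∧ u ∈ C2) ∧ u ∉ C ∧ r u = r w := by
    intro u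
    rw [hU, mem_filter, mem_erase]
  obtain ⟨u, hu, v, hv, hvU, huv⟩ := h.2 (r w) (hs hkC) U (by rw [hU]; exact filter_subset _ _)
    ⟨w, (hm w).2 ⟨⟨fun h1 => hwC (by rw [h1]; exact hkC), hw⟩, hwC, rfl⟩⟩ (by
      intro h1
      have h2 : c ∈ U := by
        rw [h1, mem_erase]
        exact ⟨hck, hs hcC⟩
      exact ((hm c).1 h2).2.1 hcC)
  rw [hm] at hu
  rw [mem_erase] at hv
  rw [mem_filter, mem_ein] at huv
  have h3 : r u = r v := hr.edge u v huv.1.1 (fun h4 => hu.2.1 h4.1)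
  have h5 : r v = r w := h3.symm.trans hu.2.2
  by_cases hvC : v ∈ C
  · rw [hr.id v hvC] at h5
    exact hv.1 h5
  · exact hvU ((hm v).2 ⟨hv, hvC, h5⟩)

end Pool.Agent.LibMB68
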