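import Mathlib
import Pool.Agent.LibMB68.Sig
import Pool.Agent.LibMC91.R2
import Pool.Agent.LibMC91.R13
import Pool.Agent.LibMC91.R15
import Pool.Agent.LibMC91.R16
import Pool.Agent.LibMC91.C1s

set_option autoImplicit false
set_option linter.unusedSectionVars false

namespace Pool.Agent.LibMB68

open Finset Pool.Agent.LibMST Pool.Agent.LibMSB Pool.Agent.LibOC52 Pool.Agent.LibMC91

variable {V : Type*} [Fintype V] [DecidableEq V]


private theorem wh_pos (E : Finset (Sym2 V)) (C : Finset V) (v : V) : 1 ≤ wh E C v := by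
  unfold wh nr
  rw [Nat.one_le_iff_ne_zero, ← Nat.pos_iff_ne_zero, card_pos]
  refine ⟨({v}, ∅), ?_⟩
  rw [mem_rt]
  exact ⟨⟨⟨empty_subset _, v, Grow.base⟩, subset_univ _⟩, mem_singleton_self v⟩

private theorem wh_le_sh (E : Finset (Sym2 V)) (C : Finset V) (v : V) : wh E C v ≤ sh E C v := by
  unfold wh nr sh sr
  rw [card_eq_sum_ones]
  apply sum_le_sum
  intro p hp
  rw [mem_rt] at hp
  exact card_pos.2 ⟨v, hp.2⟩

private theorem tc_univ (E : Finset (Sym2 V)) : tc univ E = TP E := by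
  ext p
  rw [mem_tc, mem_TP]
  exact ⟨fun h => h.1, fun h => ⟨h, subset_univ _⟩⟩

/-- ROW B13s (for a piece with at most 16 vertices). -/
theorem cov_posB_s {E : Finset (Sym2 V)} {C : Finset V} (hl : ∀ e ∈ E, ¬ e.IsDiag) (hE : Cn E univ) (hC : Piece E C)
    (hlo : Lo E Cᶜ) (h16 : C.card ≤ 16) :
    ∃ e ∈ ein E C, 0 < cov E e := by
  classical
  have _ := hE
  obtain ⟨r, hr⟩ := hC.root
  have hc := hC.conn
  have hb := hC.two
  obtain ⟨EC, hECd⟩ : ∃ EC, EC = ein E C := ⟨_, rfl⟩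
  have hEC : ∀ e ∈ EC, ∀ x ∈ e, x ∈ C := by
    intro e he
    rw [hECd, mem_ein] at he
    exact he.2
  have htc : tc C EC = tc C E := by rw [hECd, tc_ein]
  rw [← hECd] at hc hb ⊢
  obtain ⟨w, hw⟩ : ∃ w : V → ℚ, ∀ v, w v = (wh E C v : ℚ) := ⟨_, fun _ => rfl⟩
  obtain ⟨β, hβ⟩ : ∃ β : V → ℚ, ∀ v, β v = (sh E C v : ℚ) / (wh E C v : ℚ) - 1 := ⟨_, fun _ => rfl⟩
  have hw1 : ∀ v, 1 ≤ w v := fun v => by
    rw [hw]; exact_mod_cast wh_pos E C v
  have hβ0 : ∀ v, 0 ≤ β v := fun v => by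
    have h1 : (wh E C v : ℚ) ≤ sh E C v := by exact_mod_cast wh_le_sh E C v
    have h2 := hw1 v
    rw [hw] at h2
    rw [hβ, sub_nonneg, le_div_iff₀ (by linarith)]
    linarith
  have hβ2 : ∀ v, β v ≤ w v / 2 := by
    intro v
    have h1 := two_sr (E \ ein E C) univ v
    have h2 : 2 * (sh E C v : ℚ) ≤ wh E C v * (wh E C v + 1) := by
      unfold sh wh
      exact_mod_cast h1
    have p1 := hw1 v
    rw [hw] at p1
    rw [hβ, hw, sub_le_iff_le_add, div_le_iff₀ (by linarith)]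
    nlinarith
  have hedge : ∀ T ∈ tc C EC, (T.2.card : ℚ) = (T.1.card : ℚ) - 1 := by
    intro T hT
    rw [mem_tc] at hT
    obtain ⟨⟨_, r', hg⟩, _⟩ := hT
    have h := hg.card_eq
    rw [← h]
    push_cast
    ring
  obtain ⟨W, hW⟩ : ∃ W : Finset V × Finset (Sym2 V) → ℚ, ∀ T, W T = ∏ v ∈ T.1, w v := ⟨_, fun _ => rfl⟩
  have hWpos : ∀ T, 0 < W T := fun T => by
    rw [hW]; exact prod_pos (fun i _ => lt_of_lt_of_le zero_lt_one (hw1 i))
  obtain ⟨F, hF⟩ : ∃ F : Finset V × Finset (Sym2 V) → Finset (Finset V × Finset (Sym2 V)),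
      ∀ T, F T = (TP E).filter (fun p => p.1 ∩ C = T.1 ∧ p.2 ∩ EC = T.2) := ⟨_, fun _ => rfl⟩
  have hF1 : ∀ T ∈ tc C EC, ((F T).card : ℚ) = W T := by
    intro T hT
    rw [htc] at hT
    have h1 := (prod_formula hr hT).1
    rw [hF, hW, hECd, h1]
    push_cast
    exact prod_congr rfl (fun v _ => (hw v).symm)
  have hF2 : ∀ T ∈ tc C EC, ∑ p ∈ F T, (p.1.card : ℚ) = W T * ((T.1.card : ℚ) + ∑ v ∈ T.1, β v) := by
    intro T hT
    rw [htc] at hT
    have h1 := (prod_formula hr hT).2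
    rw [hF, hW, hECd, h1]
    congr 1
    · exact prod_congr rfl (fun v _ => (hw v).symm)
    · congr 1
      exact sum_congr rfl (fun v _ => (hβ v).symm)
  -- existence of trees of order 1 and at least 2
  obtain ⟨e0, he00⟩ := hC.ne
  obtain ⟨he0E', he0C⟩ := mem_ein.1 he00
  obtain ⟨u, v, huv⟩ : ∃ u v, e0 = s(u, v) := by
    induction e0 using Sym2.ind with
    | _ u v => exact ⟨u, v, rfl⟩
  subst huv
  have huC : u ∈ C := he0C u (Sym2.mem_mk_left u v)
  have hvC : v ∈ C := he0C v (Sym2.mem_mk_right u v)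
  have he0E : s(u, v) ∈ E := he0E'
  have he0 : s(u, v) ∈ EC := by
    rw [hECd, mem_ein]
    exact ⟨he0E, he0C⟩
  have huv : u ≠ v := fun h => hl _ he0E (by rw [h]; exact Sym2.mk_isDiag_iff.mpr rfl)
  have hex1 : ∃ T ∈ tc C EC, T.1.card = 1 := by
    refine ⟨({u}, ∅), ?_, card_singleton u⟩
    unfold tc
    rw [mem_filter]
    exact ⟨single_mem EC u, singleton_subset_iff.mpr huC⟩
  have hex2 : ∃ T ∈ tc C EC, 2 ≤ T.1.card := by
    refine ⟨((insert v {u} : Finset V), (insert s(u, v) ∅ : Finset (Sym2 V))), ?_, ?_⟩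
    · unfold tc
      rw [mem_filter]
      refine ⟨pair_mem huv he0, ?_⟩
      intro x hx
      rw [mem_insert, mem_singleton] at hx
      rcases hx with rfl | rfl
      · exact hvC
      · exact huC
    · show 2 ≤ (insert v {u} : Finset V).card
      rw [card_pair huv.symm]
  -- the four sums
  obtain ⟨M, hM⟩ : ∃ M : ℚ, M = ∑ T ∈ tc C EC, W T := ⟨_, rfl⟩
  obtain ⟨AM, hAM⟩ : ∃ AM : ℚ, AM = ∑ T ∈ tc C EC, W T * ((T.1.card : ℚ) + ∑ v ∈ T.1, β v) := ⟨_, rfl⟩
  obtain ⟨K, hK⟩ : ∃ K : ℚ, K = ∑ T ∈ tc C EC, W T * ((T.1.card : ℚ) - 1) := ⟨_, rfl⟩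
  obtain ⟨L, hL⟩ : ∃ L : ℚ, L = ∑ T ∈ tc C EC, W T * (((T.1.card : ℚ) + ∑ v ∈ T.1, β v) * ((T.1.card : ℚ) - 1)) :=
    ⟨_, rfl⟩
  obtain ⟨O, hO⟩ : ∃ O : ℚ, O = (no Cᶜ E : ℚ) := ⟨_, rfl⟩
  obtain ⟨AO, hAO⟩ : ∃ AO : ℚ, AO = (so Cᶜ E : ℚ) := ⟨_, rfl⟩
  have havoid : (TP E).filter (fun p => Disjoint p.1 C) = tc Cᶜ E := by
    ext p
    rw [mem_filter, mem_tc, mem_TP, disjoint_left, Finset.subset_iff]
    constructor
    · exact fun h => ⟨h.1, fun x hx => mem_compl.2 (h.2 hx)⟩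
    · exact fun h => ⟨h.1, fun x hx => mem_compl.1 (h.2 hx)⟩
  have hsplit : ∀ g : ℕ → ℕ → ℚ, ∑ p ∈ TP E, g p.1.card (p.2 ∩ EC).card =
      ∑ T ∈ tc C EC, ∑ p ∈ F T, g p.1.card T.2.card + ∑ p ∈ tc Cᶜ E, g p.1.card 0 := by
    intro g
    rw [← sum_filter_add_sum_filter_not (TP E) (fun p => Disjoint p.1 C), add_comm]
    congr 1
    · have h1 : ∀ p ∈ (TP E).filter (fun p => ¬ Disjoint p.1 C), (p.1 ∩ C, p.2 ∩ EC) ∈ tc C EC := by
        intro p hp
        rw [mem_filter] at hp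
        rw [htc, hECd]
        exact core_part hr hp.1 hp.2
      rw [← sum_fiberwise_of_maps_to h1]
      apply sum_congr rfl
      intro T hT
      have h2 : ((TP E).filter (fun p => ¬ Disjoint p.1 C)).filter (fun p => (p.1 ∩ C, p.2 ∩ EC) = T) = F T := by
        rw [hF]
        ext p
        rw [mem_filter, mem_filter, mem_filter, Prod.ext_iff]
        constructor
        · exact fun h => ⟨h.1.1, h.2⟩
        · intro h
          refine ⟨⟨h.1, ?_⟩, h.2⟩
          rw [mem_tc] at hT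
          obtain ⟨⟨-, r', hg⟩, -⟩ := hT
          have h3 := hg.root_mem
          rw [← h.2.1, mem_inter] at h3
          exact fun h4 => disjoint_left.1 h4 h3.1 h3.2
      rw [h2]
      apply sum_congr rfl
      intro p hp
      rw [hF, mem_filter] at hp
      rw [hp.2.2]
    · rw [havoid]
      apply sum_congr rfl
      intro p hp
      have h3 : p.2 ∩ EC = ∅ := by
        rw [eq_empty_iff_forall_notMem]
        intro e he
        rw [mem_inter] at he
        rw [mem_tc] at hp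
        obtain ⟨⟨-, r', hg⟩, h4⟩ := hp
        induction e using Sym2.ind with
        | _ a b =>
          have h5 := h4 (hg.edge_sub _ he.1 a (Sym2.mem_mk_left a b))
          exact (mem_compl.1 h5) (hEC _ he.2 a (Sym2.mem_mk_left a b))
      rw [h3, card_empty]
  have hN : cntN E = M + O := by
    have h := hsplit (fun _ _ => 1)
    have e1 : cntN E = ∑ p ∈ TP E, (1 : ℚ) := by
      unfold cntN
      rw [sum_const, nsmul_eq_mul, mul_one]
    rw [e1, h, hM, hO]
    congr 1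
    · apply sum_congr rfl
      intro T hT
      rw [sum_const, nsmul_eq_mul, mul_one]
      exact hF1 T hT
    · rw [sum_const, nsmul_eq_mul, mul_one]
      rfl
  have hA : cntA E = AM + AO := by
    have h := hsplit (fun a _ => (a : ℚ))
    have e1 : cntA E = ∑ p ∈ TP E, (p.1.card : ℚ) := rfl
    rw [e1, h, hAM, hAO]
    congr 1
    · apply sum_congr rfl
      intro T hT
      exact hF2 T hT
    · unfold so
      push_cast
      rfl
  have hKs : ∑ p ∈ TP E, ((p.2 ∩ EC).card : ℚ) = K := by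
    have h := hsplit (fun _ b => (b : ℚ))
    rw [h, hK]
    have e2 : ∑ p ∈ tc Cᶜ E, ((0 : ℕ) : ℚ) = 0 := by
      apply sum_eq_zero
      intro t _
      rfl
    rw [e2, add_zero]
    apply sum_congr rfl
    intro T hT
    rw [sum_const, nsmul_eq_mul, hedge T hT, hF1 T hT]
  have hLs : ∑ p ∈ TP E, (p.1.card : ℚ) * ((p.2 ∩ EC).card : ℚ) = L := by
    have h := hsplit (fun a b => (a : ℚ) * (b : ℚ))
    rw [h, hL]
    have e2 : ∑ p ∈ tc Cᶜ E, ((p.1.card : ℕ) : ℚ) * ((0 : ℕ) : ℚ) = 0 := by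
      apply sum_eq_zero
      intro t _
      simp
    rw [e2, add_zero]
    apply sum_congr rfl
    intro T hT
    rw [← sum_mul, hedge T hT, ← mul_assoc, hF2 T hT]
  have hcovsum : ∑ e ∈ EC, cov E e = (M + O) * L - (AM + AO) * K := by
    unfold cov
    rw [sum_sub_distrib, ← mul_sum, ← mul_sum, hN, hA]
    have e1 : ∑ e ∈ EC, cntAe E e = L := by
      unfold cntAe ord
      rw [sum_comm, ← hLs]
      apply sum_congr rfl
      intro p _
      rw [← sum_filter, sum_const, nsmul_eq_mul, mul_comm]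
      congr 2
      congr 1
      ext a
      rw [mem_filter, mem_inter]
      tauto
    have e2 : ∑ e ∈ EC, cntNe E e = K := by
      unfold cntNe
      rw [sum_comm, ← hKs]
      apply sum_congr rfl
      intro p _
      rw [← sum_filter, sum_const, nsmul_eq_mul, mul_one]
      congr 2
      ext a
      rw [mem_filter, mem_inter]
      tauto
    rw [e1, e2]
  have hMpos : 0 < M := by
    rw [hM]
    obtain ⟨T1, hT1, _⟩ := hex1
    exact sum_pos (fun T _ => hWpos T) ⟨T1, hT1⟩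
  have hOnn : 0 ≤ O := by
    rw [hO]
    exact Nat.cast_nonneg _
  have hKnn : 0 ≤ K := by
    rw [hK]
    apply sum_nonneg
    intro T hT
    have := card_pos_tc hT
    have h3 : (1 : ℚ) ≤ T.1.card := by exact_mod_cast this
    exact mul_nonneg (hWpos T).le (by linarith)
  -- the core inequality
  have hcore : 0 < M * L - AM * K := by
    obtain ⟨kb, hkb⟩ : ∃ kb : ℚ, kb = (K + M) / M := ⟨_, rfl⟩
    have hKM : ∑ T ∈ tc C EC, W T * (T.1.card : ℚ) = K + M := by
      rw [hK, hM, ← sum_add_distrib]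
      apply sum_congr rfl
      intro T _
      ring
    have h0 : ∑ T ∈ tc C EC, (∏ v ∈ T.1, w v) * ((T.1.card : ℚ) - kb) = 0 := by
      have e1 : ∑ T ∈ tc C EC, (∏ v ∈ T.1, w v) * ((T.1.card : ℚ) - kb) =
          ∑ T ∈ tc C EC, W T * (T.1.card : ℚ) - kb * ∑ T ∈ tc C EC, W T := by
        rw [mul_sum, ← sum_sub_distrib]
        apply sum_congr rfl
        intro T _
        rw [hW]
        ring
      rw [e1, hKM, ← hM, hkb]
      field_simp
      ring
    have h1 := c1s hEC hc hb hw1 hβ0 hβ2 h16 hex1 hex2 h0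
    have e2 : ∑ T ∈ tc C EC, (∏ v ∈ T.1, w v) * (((T.1.card : ℚ) + ∑ v ∈ T.1, β v) * ((T.1.card : ℚ) - kb)) =
        L + AM - kb * AM := by
      rw [hL, hAM, mul_sum, ← sum_add_distrib, ← sum_sub_distrib]
      apply sum_congr rfl
      intro T _
      rw [hW]
      ring
    rw [e2, hkb] at h1
    have h3 : 0 < M * (L + AM - (K + M) / M * AM) := mul_pos hMpos h1
    have h4 : M * (L + AM - (K + M) / M * AM) = M * L - AM * K := by
      field_simp
      ring
    linarith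
  -- the trees which avoid the core
  have hAOle : AO * M ≤ O * AM := by
    unfold Lo at hlo
    have h1 : (no univ E : ℚ) = M + O := by
      rw [← hN]
      unfold no cntN
      rw [tc_univ]
    have h2 : (so univ E : ℚ) = AM + AO := by
      rw [← hA]
      unfold so
      rw [tc_univ]
      push_cast
      rfl
    have h3 : (no univ E : ℚ) * (so Cᶜ E : ℚ) ≤ (so univ E : ℚ) * (no Cᶜ E : ℚ) := by exact_mod_cast hlo
    rw [h1, h2, ← hO, ← hAO] at h3
    nlinarith
  have hfin : 0 < (M + O) * L - (AM + AO) * K := by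
    have h1 : (M + O) * (M * L - AM * K) ≤ M * ((M + O) * L - (AM + AO) * K) := by
      have h2 := mul_le_mul_of_nonneg_right hAOle hKnn
      have h3 : M * ((M + O) * L - (AM + AO) * K) - (M + O) * (M * L - AM * K) = O * AM * K - AO * M * K := by ring
      linarith
    have h4 : 0 < (M + O) * (M * L - AM * K) := mul_pos (by linarith) hcore
    have h5 : 0 < M * ((M + O) * L - (AM + AO) * K) := lt_of_lt_of_le h4 h1
    exact (mul_pos_iff_of_pos_left hMpos).mp h5
  by_contra hcon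
  push Not at hcon
  have h1 := sum_nonpos hcon
  rw [hcovsum] at h1
  linarith

end Pool.Agent.LibMB68
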