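import Mathlib
import Pool.Agent.LibMB68.Sig

set_option autoImplicit false
set_option linter.unusedSectionVars false

namespace Pool.Agent.LibMB68

open Finset Pool.Agent.LibMST Pool.Agent.LibMSB Pool.Agent.LibOC52 Pool.Agent.LibMC91

variable {V : Type*} [Fintype V] [DecidableEq V]

/-- ROW B14 (edges of a piece are not bridges). -/
theorem piece_nb {E : Finset (Sym2 V)} (hE : Cn E univ) {C : Finset V} (hC : Piece E C) : ∀ e ∈ ein E C, e ∈ nb E := by
  intro e he
  rw [mem_nb]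
  refine ⟨(mem_ein.1 he).1, ?_⟩
  intro U hU hne hUn
  obtain ⟨u, hu, h, hh, hn, hs⟩ := hE U hU hne hUn
  by_cases hse : s(u, h) = e
  · have huC : u ∈ C := (mem_ein.1 he).2 u (by rw [← hse]; exact Sym2.mem_mk_left u h)
    have hhC : h ∈ C := (mem_ein.1 he).2 h (by rw [← hse]; exact Sym2.mem_mk_right u h)
    obtain ⟨u', hu', h', hh', hn', hs'⟩ := hC.two e he (U ∩ C) inter_subset_right
      ⟨u, mem_inter.2 ⟨hu, huC⟩⟩ (by
        intro h1
        have h2 : h ∈ U ∩ C := by rw [h1]; exact hhC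
        exact hn (mem_inter.1 h2).1)
    refine ⟨u', (mem_inter.1 hu').1, h', mem_univ _, fun h1 => hn' (mem_inter.2 ⟨h1, hh'⟩), ?_⟩
    rw [mem_erase] at hs' ⊢
    exact ⟨hs'.1, (mem_ein.1 hs'.2).1⟩
  · exact ⟨u, hu, h, hh, hn, mem_erase.2 ⟨hse, hs⟩⟩

end Pool.Agent.LibMB68
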