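import Mathlib
import Pool.Agent.LibMB68.Sig

set_option autoImplicit false
set_option linter.unusedSectionVars false

namespace Pool.Agent.LibMB68

open Finset Pool.Agent.LibMST Pool.Agent.LibMSB Pool.Agent.LibOC52 Pool.Agent.LibMC91

variable {V : Type*} [Fintype V] [DecidableEq V]

/-- ROW B2. -/
theorem vcut_conn {E : Finset (Sym2 V)} (hE : Cn E univ) {Z : Finset V} {k : V} (h : VCut E Z k) :
    Cn (ein E (insert k Z)) (insert k Z) ∧ Cn (ein E Zᶜ) Zᶜ := by
  have hein : ein E univ = E := by
    ext a
    rw [mem_ein]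
    exact ⟨fun h => h.1, fun h => ⟨h, fun _ _ => mem_univ _⟩⟩
  have hE' : Cn (ein E univ) univ := by rw [hein]; exact hE
  obtain ⟨hk, hZ⟩ := h
  constructor
  · apply side_conn (u := k) hE' (subset_univ _)
    intro a ha b _ hb hab
    rw [mem_insert] at ha hb
    push Not at hb
    rcases ha with ha | ha
    · exact ha
    · exact absurd (hZ a ha b hb.2 hab) hb.1
  · apply side_conn (u := k) hE' (subset_univ _)
    intro a ha b _ hb hab
    rw [mem_compl] at ha
    have hb' : b ∈ Z := by
      by_contra hc
      exact hb (mem_compl.mpr hc)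
    exact hZ b hb' a ha (by rw [Sym2.eq_swap]; exact hab)

end Pool.Agent.LibMB68
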