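import Mathlib
import Pool.Agent.LibMB68.Sig
import Pool.Agent.LibMB68.B1
import Pool.Agent.LibMB68.B2
import Pool.Agent.LibMC91.R4

set_option autoImplicit false
set_option linter.unusedSectionVars false

namespace Pool.Agent.LibMB68

open Finset Pool.Agent.LibMST Pool.Agent.LibMSB Pool.Agent.LibOC52 Pool.Agent.LibMC91

variable {V : Type*} [Fintype V] [DecidableEq V]

private theorem v6_so_le (E : Finset (Sym2 V)) (X : Finset V) : so X E ≤ X.card * no X E := by
  unfold so no
  rw [mul_comm, ← smul_eq_mul]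
  apply sum_le_card_nsmul
  intro p hp
  rw [mem_tc] at hp
  exact card_le_card hp.2

/-- One of the two sides of a cut vertex is not too large in the mean. -/
private theorem vcut_or {E : Finset (Sym2 V)} (hl : ∀ e ∈ E, ¬ e.IsDiag) {Z : Finset V} {v : V} (hvZ : v ∉ Z)
    (hZ : ∀ u ∈ Z, ∀ w, w ∉ Z → s(u, w) ∈ E → w = v)
    (hc1 : Cn (ein E (insert v Z)) (insert v Z)) (hc2 : Cn (ein E Zᶜ) Zᶜ) :
    Lo E Z ∨ Lo E (Zᶜ.erase v) := by
  by_contra hcon
  push Not at hcon
  obtain ⟨h5, h6⟩ := hcon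
  unfold Lo at h5 h6
  push Not at h5 h6
  obtain ⟨e1, e2⟩ := vcut_sum hl (k := v) (Z := Z) ⟨hvZ, hZ⟩
  have hv2 : v ∈ Zᶜ := mem_compl.mpr hvZ
  have h3 := half hc1 (mem_insert_self v Z)
  have h4 := half hc2 hv2
  have h1 := v6_so_le E Z
  have h2 := v6_so_le E (Zᶜ.erase v)
  rw [card_insert_of_notMem hvZ] at h3
  have hcard : Zᶜ.card = (Zᶜ.erase v).card + 1 := by
    rw [card_erase_of_mem hv2]
    have := card_pos.mpr ⟨v, hv2⟩
    omega
  rw [hcard] at h4
  generalize no univ E = N at *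
  generalize so univ E = A at *
  generalize no Z E = n at *
  generalize no (Zᶜ.erase v) E = n' at *
  generalize so Z E = s at *
  generalize so (Zᶜ.erase v) E = s' at *
  generalize nr (insert v Z) E v = a at *
  generalize nr Zᶜ E v = b at *
  generalize sr (insert v Z) E v = al at *
  generalize sr Zᶜ E v = be at *
  generalize Z.card = X at *
  generalize (Zᶜ.erase v).card = Y at *
  -- all numbers as rationals
  have q1 : (N : ℚ) = n + n' + a * b := by exact_mod_cast e1
  have q2 : (A : ℚ) + a * b = s + s' + (al * b + a * be) := by exact_mod_cast e2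
  have q3 : (a : ℚ) * (X + 1 + 1) ≤ 2 * al := by exact_mod_cast h3
  have q4 : (b : ℚ) * (Y + 1 + 1) ≤ 2 * be := by exact_mod_cast h4
  have q5 : (A : ℚ) * n < N * s := by exact_mod_cast h5
  have q6 : (A : ℚ) * n' < N * s' := by exact_mod_cast h6
  have q7 : (s : ℚ) ≤ X * n := by exact_mod_cast h1
  have q8 : (s' : ℚ) ≤ Y * n' := by exact_mod_cast h2
  have pN : (0 : ℚ) ≤ N := Nat.cast_nonneg _
  have pn : (0 : ℚ) ≤ n := Nat.cast_nonneg _
  have pn' : (0 : ℚ) ≤ n' := Nat.cast_nonneg _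
  have pa : (0 : ℚ) ≤ a := Nat.cast_nonneg _
  have pb : (0 : ℚ) ≤ b := Nat.cast_nonneg _
  have k1 : (A : ℚ) < N * X := by
    have h := mul_le_mul_of_nonneg_left q7 pN
    have h' : (A : ℚ) * n < (N * X) * n := by linarith
    exact lt_of_mul_lt_mul_right h' pn
  have k2 : (A : ℚ) < N * Y := by
    have h := mul_le_mul_of_nonneg_left q8 pN
    have h' : (A : ℚ) * n' < (N * Y) * n' := by linarith
    exact lt_of_mul_lt_mul_right h' pn'
  have k3 : (N : ℚ) * (al * b + a * be - a * b) < A * (a * b) := by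
    have c1 : (A : ℚ) * N = A * n + A * n' + A * (a * b) := by rw [q1]; ring
    have c2 : (A : ℚ) * N = N * s + N * s' + N * (al * b + a * be - a * b) := by
      have : (A : ℚ) = s + s' + (al * b + a * be - a * b) := by linarith
      rw [this]; ring
    linarith
  have k4 : (a : ℚ) * b * (X + Y + 2) ≤ 2 * (al * b + a * be - a * b) := by
    have c1 := mul_le_mul_of_nonneg_left q3 pb
    have c2 := mul_le_mul_of_nonneg_left q4 pa
    linarith
  have k5 := mul_le_mul_of_nonneg_left k4 pN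
  have pab : (0 : ℚ) ≤ a * b := mul_nonneg pa pb
  have k6 : (2 * A : ℚ) * (a * b) ≤ (N * (X + Y + 2)) * (a * b) := by
    apply mul_le_mul_of_nonneg_right _ pab
    linarith
  linarith

/-- ROW B3. -/
theorem vlo_or {E : Finset (Sym2 V)} (hl : ∀ e ∈ E, ¬ e.IsDiag) (hE : Cn E univ) {Z : Finset V} {k : V} (h : VCut E Z k) :
    Lo E Z ∨ Lo E (Zᶜ.erase k) :=
  vcut_or hl h.1 h.2 (vcut_conn hE h).1 (vcut_conn hE h).2

end Pool.Agent.LibMB68
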