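import Mathlib
import Pool.Agent.LibMB68.Sig
import Pool.Agent.LibMB68.B6

set_option autoImplicit false
set_option linter.unusedSectionVars false

/-!
# LibMB68, row B8 (minimal piece through a vertex)
-/

namespace Pool.Agent.LibMB68

open Finset Pool.Agent.LibMST Pool.Agent.LibMSB Pool.Agent.LibOC52 Pool.Agent.LibMC91

variable {V : Type*} [Fintype V] [DecidableEq V]

/-- ROW B8. -/
theorem block_at {E : Finset (Sym2 V)} (hl : ∀ e ∈ E, ¬ e.IsDiag) (hE : Cn E univ) {K : Finset V} {k : V} (hK : Piece E K)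
    (hk : k ∈ K) : ∃ C ⊆ K, Block E C ∧ k ∈ C := by
  classical
  obtain ⟨C, hC, hmin⟩ := exists_min_image (K.powerset.filter (fun C => Piece E C ∧ k ∈ C)) card
    ⟨K, mem_filter.2 ⟨mem_powerset.2 (Subset.refl _), hK, hk⟩⟩
  rw [mem_filter, mem_powerset] at hC
  obtain ⟨hCK, hCp, hkC⟩ := hC
  refine ⟨C, hCK, ⟨hCp, ?_⟩, hkC⟩
  intro C' hC' hp'
  by_contra hne
  have hlt : C'.card < C.card := card_lt_card (lt_of_le_of_ne hC' hne)
  by_cases hkC' : k ∈ C'
  · have h1 := hmin C' (mem_filter.2 ⟨mem_powerset.2 (hC'.trans hCK), hp', hkC'⟩)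
    omega
  · obtain ⟨r, hr⟩ := hp'.root
    obtain ⟨W, hW⟩ : ∃ W : Finset V, ∀ w, w ∈ W ↔ w ∉ C' ∧ r w = r k :=
      ⟨univ.filter (fun w => w ∉ C' ∧ r w = r k), fun w => by rw [mem_filter]; simp⟩
    have hk' : r k ∈ C' := hr.mem k
    have hcut : VCut E W (r k) := by
      refine ⟨fun h => ((hW _).1 h).1 hk', ?_⟩
      intro u hu v hv he
      have hu' := (hW u).1 hu
      have h1 : r u = r v := hr.edge u v he (fun h => hu'.1 h.1)
      by_cases hvC : v ∈ C'
      · have h2 := hr.id v hvC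
        rw [← h2, ← h1, hu'.2]
      · exact absurd ((hW v).2 ⟨hvC, by rw [← h1, hu'.2]⟩) hv
    have hp2 : Piece E (C ∩ insert (r k) W) :=
      piece_cut hE hCp hcut (hC' hk') ⟨k, (hW k).2 ⟨hkC', rfl⟩, hkC⟩
    have hk2 : k ∈ C ∩ insert (r k) W :=
      mem_inter.2 ⟨hkC, mem_insert_of_mem ((hW k).2 ⟨hkC', rfl⟩)⟩
    have h3 := hmin (C ∩ insert (r k) W)
      (mem_filter.2 ⟨mem_powerset.2 (inter_subset_left.trans hCK), hp2, hk2⟩)
    -- `C'` has a vertex different from `r k`
    obtain ⟨c, hc, hck⟩ : ∃ c ∈ C', c ≠ r k := by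
      obtain ⟨e, he⟩ := hp'.ne
      rw [mem_ein] at he
      obtain ⟨he1, he2⟩ := he
      induction e using Sym2.ind with
      | _ a b =>
        have hab : a ≠ b := by
          intro h
          exact hl _ he1 (Sym2.mk_isDiag_iff.2 h)
        by_cases ha : a = r k
        · refine ⟨b, he2 b (Sym2.mem_mk_right a b), ?_⟩
          intro hb
          exact hab (ha.trans hb.symm)
        · exact ⟨a, he2 a (Sym2.mem_mk_left a b), ha⟩
    have h4 : C ∩ insert (r k) W ⊂ C := by
      refine ⟨inter_subset_left, ?_⟩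
      intro hsub
      have h5 := hsub (hC' hc)
      rw [mem_inter, mem_insert] at h5
      rcases h5.2 with h6 | h6
      · exact hck h6
      · exact ((hW c).1 h6).1 hc
    have h7 := card_lt_card h4
    omega

end Pool.Agent.LibMB68
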