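import Mathlib
import Pool.Agent.LibMC91.R9
import Pool.Agent.LibMB68.Sig

set_option autoImplicit false
set_option linter.unusedSectionVars false

namespace Pool.Agent.LibMB68

open Finset Pool.Agent.LibMST Pool.Agent.LibMSB Pool.Agent.LibOC52 Pool.Agent.LibMC91

variable {V : Type*} [Fintype V] [DecidableEq V]

/-- ROW B9. -/
theorem lo_of_piece {E : Finset (Sym2 V)} {C Y : Finset V} (hE : Cn E univ) (hC : Piece E C) (hY : Disjoint Y C)
    (hcl : ∀ u ∈ Y, ∀ v, v ∉ Y → s(u, v) ∈ E → v ∈ C)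
    (h : ∀ Z ⊆ Y, ∀ k ∈ C, VCut E Z k → Lo E Z) : Lo E Y := by
  obtain ⟨r, hr⟩ := hC.root
  apply comp
  intro Z hZ hne hZc hno
  have hnC : ∀ u ∈ Z, u ∉ C := fun u hu => disjoint_left.1 hY (hZ hu)
  obtain ⟨u0, hu0⟩ := id hne
  have hconst : ∀ u ∈ Z, r u = r u0 := by
    by_contra hcon
    push Not at hcon
    obtain ⟨z, hz, hzn⟩ := hcon
    obtain ⟨u, hu, v, hv, hvn, he⟩ := hZc (Z.filter (fun u => r u = r u0)) (filter_subset _ _)
      ⟨u0, mem_filter.2 ⟨hu0, rfl⟩⟩ (by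
        intro h1
        have h2 : z ∈ Z.filter (fun u => r u = r u0) := by rw [h1]; exact hz
        exact hzn (mem_filter.1 h2).2)
    rw [mem_filter] at hu hvn
    have h3 := hr.edge u v (mem_ein.1 he).1 (fun h4 => hnC u hu.1 h4.1)
    exact hvn ⟨hv, by rw [← h3]; exact hu.2⟩
  refine h Z hZ (r u0) (hr.mem u0) ⟨fun h1 => hnC _ h1 (hr.mem u0), ?_⟩
  intro u hu v hv he
  have hvY : v ∉ Y := fun h1 => hno u hu v h1 hv he
  have hvC := hcl u (hZ hu) v hvY he
  have h3 := hr.edge u v he (fun h4 => hnC u hu h4.1)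
  rw [hconst u hu, hr.id v hvC] at h3
  exact h3.symm

end Pool.Agent.LibMB68
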